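import Pool.Agent.MP_ee8c61_ag.M3S4.Push
import Pool.Agent.MP_ee8c61_ag.M3S4.Gens
import Pool.Agent.MP_ee8c61_ag.M3S.SpecG

/-!
Finite generation of the adjoint ring of a divisor from a compactification of the divisor.
-/

namespace Pool.Agent.MP_ee8c61_ag.M3S4

open M3 M3FG M3RESID Finset
open Pool.Agent.MP_96693b_ag.RS (Model)
open M3S (Dr Crv IsInt Bpf Nef II pr KD Ha SncP DescS On)

noncomputable section

/-- The surface `S` compactifies a modification of the divisor `o`; `H` is the divisor at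
infinity, `tr` the restriction of divisors and `gam` the list of double curves. -/
structure Brg (M : Mod 3) (o : M.J) (w : M.J → ℤ) {k : Type} [Field k] [Algebra ℂ k]
    (P : Pl (KK 3) k) (p0 : KK 3) (S : Model k 2) (H T : Dr S) (n : ℕ)
    (tr : (M.J → ℤ) →+ Dr S) (gam : Cu M o → Crv S) (φ : k) : Prop where
  po : P.o = M.v o
  p1 : (M.v o).v p0 = 1
  hZ : IsInt H
  h0 : 0 ≤ H
  hb : Bpf H
  sec : ∀ c, ∀ s ∈ (M.v o).F (-c o), s ∈ M.R o c ↔ Ha H (tr c) (P.π (s * p0 ^ c o))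
  inj : Function.Injective gam
  gH : ∀ Γ, H (gam Γ) = 0
  tr1 : ∀ j, j ≠ o → ∀ Γ, tr (M.e j) (gam Γ) = if Γ.1.1 = j then 1 else 0
  tr0 : ∀ j, j ≠ o → ∀ C, H C = 0 → C ∉ Set.range gam → tr (M.e j) C = 0
  cu : ∀ (Γ : Cu M o) c (θ : ℤ), ∀ s ∈ (M.v o).F (-c o), M.Oc Γ.1.2 (c - θ • M.e Γ.1.1) s ↔
    (P.π (s * p0 ^ c o) ≠ 0 → (θ : ℝ) ≤ (gam Γ).1.ord (P.π (s * p0 ^ c o)) + tr c (gam Γ))
  snc : ∀ p, (∀ C, On C p → H C = 0) → SncP (Set.range gam) p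
  φ0 : φ ≠ 0
  adj : ∀ C, H C = 0 → tr (M.kk + M.e o) C = KD S C + C.1.ord φ
  n0 : 0 < n
  tZ : IsInt T
  tn : Nef T
  tt : 0 < II S T T
  tw : ∀ C, H C = 0 → T C = n * tr w C ∧ 0 < II S T (pr C)

variable {M : Mod 3} {o : M.J} {w : M.J → ℤ} {k : Type} [Field k] [Algebra ℂ k]
  {P : Pl (KK 3) k} {p0 : KK 3} {S : Model k 2} {H T : Dr S} {n : ℕ}
  {tr : (M.J → ℤ) →+ Dr S} {gam : Cu M o → Crv S} {φ : k}

/-- The boundary on the surface. -/
def bd [Fintype (Cu M o)] (gam : Cu M o → Crv S) (z : Dg M o) : Dr S :=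
  ∑ Γ, ((z.b Γ.1.1 - z.θ Γ : ℤ) : ℝ) • pr (gam Γ)

theorem bd_gam [Fintype (Cu M o)] (hi : Function.Injective gam) (z : Dg M o) (Γ : Cu M o) :
    bd gam z (gam Γ) = ((z.b Γ.1.1 - z.θ Γ : ℤ) : ℝ) := by
  rw [bd, Finsupp.finsetSum_apply, sum_eq_single Γ (fun Γ' _ h => ?_) (by simp)]
  · simp
  · simp [Finsupp.single_eq_of_ne (hi.ne h).symm]

theorem bd_off [Fintype (Cu M o)] (z : Dg M o) {C : Crv S} (h : C ∉ Set.range gam) :
    bd gam z C = 0 := by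
  rw [bd, Finsupp.finsetSum_apply]
  exact sum_eq_zero fun Γ _ => by
    simp [Finsupp.single_eq_of_ne (show C ≠ gam Γ from fun e => h ⟨Γ, e.symm⟩)]

theorem bd_sum [Fintype (Cu M o)] {l : ℕ} (z : Fin l → Dg M o) (a : Fin l → ℕ) :
    bd gam (∑ i, a i • z i) = ∑ i, (a i : ℝ) • bd gam (z i) := by
  simp only [bd, smul_sum, smul_smul, Dg.b, Dg.θ, Finset.sum_apply, Pi.smul_apply]
  rw [sum_comm]
  refine sum_congr rfl fun Γ _ => ?_
  rw [← sum_smul]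
  congr 1
  simp [mul_sub, sum_sub_distrib]

theorem tr_b (tr : (M.J → ℤ) →+ Dr S) {b : M.J → ℤ} (hb : b o = 0) (C : Crv S) :
    tr b C = ∑ j ∈ univ.erase o, (b j : ℝ) * tr (M.e j) C := by
  have e1 : b = ∑ j ∈ univ.erase o, b j • M.e j := by
    funext i
    simp only [Finset.sum_apply, Pi.smul_apply, M.e_apply, smul_eq_mul, mul_ite, mul_one, mul_zero,
      sum_ite_eq, mem_erase, mem_univ, and_true]
    by_cases hi : i = o
    · simp [hi, hb]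
    · simp [hi]
  conv_lhs => rw [e1]
  rw [map_sum, Finsupp.finsetSum_apply]
  exact sum_congr rfl fun j _ => by rw [map_zsmul, Finsupp.smul_apply, zsmul_eq_mul]

theorem tr_gam (h : Brg M o w P p0 S H T n tr gam φ) {b : M.J → ℤ} (hb : b o = 0) (Γ : Cu M o) :
    tr b (gam Γ) = b Γ.1.1 := by
  rw [tr_b tr hb, sum_eq_single Γ.1.1 (fun j hj hne => ?_) (fun hn => ?_)]
  · rw [h.tr1 _ Γ.2.1, if_pos rfl, mul_one]
  · rw [h.tr1 _ (mem_erase.1 hj).1, if_neg (Ne.symm hne), mul_zero]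
  · exact absurd (mem_erase.2 ⟨Γ.2.1, mem_univ _⟩) hn

theorem tr_off (h : Brg M o w P p0 S H T n tr gam φ) {b : M.J → ℤ} (hb : b o = 0) {C : Crv S}
    (h0 : H C = 0) (hC : C ∉ Set.range gam) : tr b C = 0 := by
  rw [tr_b tr hb]
  exact sum_eq_zero fun j hj => by rw [h.tr0 j (mem_erase.1 hj).1 C h0 hC, mul_zero]

theorem tr_dc (h : Brg M o w P p0 S H T n tr gam φ) {μ : ℕ} (hμ : 0 < μ) (z : Dg M o) {C : Crv S}
    (h0 : H C = 0) : tr (dc (FF M o μ w) z) C = (μ * z none : ℤ) *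
      (KD S C + ((n * μ : ℕ) : ℝ)⁻¹ * T C + C.1.ord φ) + tr z.b C := by
  have e1 : dc (FF M o μ w) z = z none • (μ • (M.kk + M.e o) + w) + z.b := rfl
  have a1 : (n : ℝ) ≠ 0 := Nat.cast_ne_zero.2 h.n0.ne'
  have a2 : (μ : ℝ) ≠ 0 := Nat.cast_ne_zero.2 hμ.ne'
  rw [e1, map_add, map_zsmul, map_add, map_nsmul, Finsupp.add_apply, Finsupp.smul_apply,
    Finsupp.add_apply, Finsupp.smul_apply, h.adj C h0, (h.tw C h0).1]
  simp only [zsmul_eq_mul, nsmul_eq_mul]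
  push_cast
  field_simp
  ring

/-- The dictionary for sections with prescribed vanishing. -/
theorem rs_iff [Fintype (Cu M o)] (h : Brg M o w P p0 S H T n tr gam φ) {μ d : ℕ} (hμ : 0 < μ)
    {z : Dg M o} (hz : KP μ d z) {s : KK 3} (hs : s ∈ (M.v o).F (-dc (FF M o μ w) z o)) :
    s ∈ RS (FF M o μ w) z ↔
      Ha H (((μ * z none : ℤ) : ℝ) • (KD S + ((n * μ : ℕ) : ℝ)⁻¹ • T) + bd gam z)
        (P.π (s * p0 ^ dc (FF M o μ w) z o) * φ ^ ((μ : ℤ) * z none)) := by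
  set y := P.π (s * p0 ^ dc (FF M o μ w) z o) with hy
  have hφ := zpow_ne_zero ((μ : ℤ) * z none) h.φ0
  have e0 : s ∈ RS (FF M o μ w) z ↔ Ha H (tr (dc (FF M o μ w) z)) y ∧ ∀ Γ : Cu M o, y ≠ 0 →
      (z.θ Γ : ℝ) ≤ (gam Γ).1.ord y + tr (dc (FF M o μ w) z) (gam Γ) :=
    and_congr (h.sec _ s hs) (forall_congr' fun Γ => h.cu Γ _ _ s hs)
  rw [e0]
  by_cases h0 : y = 0
  · simp [h0, Ha]
  have key : ∀ C : Crv S, H C = 0 → (C.1.ord (y * φ ^ ((μ : ℤ) * z none)) : ℝ) +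
      (((μ * z none : ℤ) : ℝ) • (KD S + ((n * μ : ℕ) : ℝ)⁻¹ • T) + bd gam z) C =
      C.1.ord y + tr (dc (FF M o μ w) z) C - tr z.b C + bd gam z C := fun C hC => by
    rw [tr_dc h hμ z hC, C.1.ord_mul (C.1.val_ne h0) (C.1.val_ne hφ), C.1.ord_zpow]
    simp only [Finsupp.add_apply, Finsupp.smul_apply, smul_eq_mul]
    push_cast
    ring
  constructor
  · rintro ⟨h1, h2⟩ - C hC
    rw [key C hC]
    by_cases hr : C ∈ Set.range gam
    · obtain ⟨Γ, rfl⟩ := hr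
      have := h2 Γ h0
      rw [tr_gam h hz.1.2.1, bd_gam h.inj]
      push_cast
      linarith
    · have := h1 h0 C hC
      rw [tr_off h hz.1.2.1 hC hr, bd_off z hr]
      linarith
  · intro h1
    have h2 := fun C hC => key C hC ▸ h1 (mul_ne_zero h0 hφ) C hC
    have h3 : ∀ Γ : Cu M o,
        (z.θ Γ : ℝ) ≤ (gam Γ).1.ord y + tr (dc (FF M o μ w) z) (gam Γ) := fun Γ => by
      have := h2 _ (h.gH Γ)
      rw [tr_gam h hz.1.2.1, bd_gam h.inj] at this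
      push_cast at this
      linarith
    refine ⟨fun _ C hC => ?_, fun Γ _ => h3 Γ⟩
    by_cases hr : C ∈ Set.range gam
    · obtain ⟨Γ, rfl⟩ := hr
      exact (Int.cast_nonneg_iff.2 (hz.2 Γ).1).trans (h3 Γ)
    · have := h2 C hC
      rw [tr_off h hz.1.2.1 hC hr, bd_off z hr] at this
      linarith

theorem s4_core [Finite (Cu M o)] (h : Brg M o w P p0 S H T n tr gam φ) (hD : DescS S)
    (hR : ∀ c, ∀ g ∈ M.R o c, g ∈ (M.v o).F (-c o)) {μ d : ℕ} (hμ : 0 < μ) (hd : 0 < d) :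
    ∃ G : Set (Dg M o × KK 3), G.Finite ∧ (∀ p ∈ G, p.2 ∈ RS (FF M o μ w) p.1) ∧
      ∀ z, KP μ d z → ∀ s ∈ RS (FF M o μ w) z,
        SpM (M.v o) ((ev M o).comp (dc (FF M o μ w))) G z s := by
  classical
  have := Fintype.ofFinite (Cu M o)
  obtain ⟨l, z, z1, z2⟩ := kp_gens (M := M) (o := o) μ hd
  have a0 : (0 : ℝ) < ((n * μ : ℕ) : ℝ)⁻¹ := inv_pos.2 (Nat.cast_pos.2 (Nat.mul_pos h.n0 hμ))
  let m : Fin l → ℕ := fun i => μ * (z i none).toNat
  have m0 : ∀ i, 0 < m i := fun i => Nat.mul_pos hμ (by have := (z1 i).2; omega)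
  have m1 : ∀ i, ((m i : ℕ) : ℤ) = μ * z i none := fun i => by
    simp [m, Int.toNat_of_nonneg (z1 i).2.le]
  have m2 : ∀ i, (0 : ℝ) < m i := fun i => Nat.cast_pos.2 (m0 i)
  have hF := hD l (univ.image gam) (((n * μ : ℕ) : ℝ)⁻¹ • T) H
    (fun i => ((m i : ℕ) : ℝ)⁻¹ • bd gam (z i)) m
    (fun C => by
      obtain ⟨t, ht⟩ := h.tZ C
      exact ⟨((n * μ : ℕ) : ℚ)⁻¹ * t, by simp [ht]⟩)
    (fun C => by
      rw [map_smul, LinearMap.smul_apply]
      exact mul_nonneg a0.le (h.tn C))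
    (by
      rw [map_smul, map_smul, LinearMap.smul_apply]
      exact mul_pos a0 (mul_pos a0 h.tt))
    (fun C hC => by
      rw [map_smul, LinearMap.smul_apply]
      exact mul_pos a0 (h.tw C hC).2)
    h.hZ h.h0 h.hb (fun p hp => by simpa using h.snc p hp)
    (fun i => by
      have b1 : ∀ C, C ∉ Set.range gam → (((m i : ℕ) : ℝ)⁻¹ • bd gam (z i)) C = 0 := fun C hC => by
        rw [Finsupp.smul_apply, bd_off _ hC, smul_zero]
      have b2 : ∀ Γ, (((m i : ℕ) : ℝ)⁻¹ • bd gam (z i)) (gam Γ) =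
          ((m i : ℕ) : ℝ)⁻¹ * (((z i).b Γ.1.1 - (z i).θ Γ : ℤ) : ℝ) := fun Γ => by
        rw [Finsupp.smul_apply, bd_gam h.inj, smul_eq_mul]
      refine ⟨fun C => ?_, fun C => ?_, fun C => ?_, fun C hC => b1 C (by simpa using hC)⟩
      all_goals by_cases hr : C ∈ Set.range gam
      · obtain ⟨Γ, rfl⟩ := hr
        exact ⟨((m i : ℕ) : ℚ)⁻¹ * (((z i).b Γ.1.1 - (z i).θ Γ : ℤ) : ℚ), by rw [b2]; simp⟩
      · exact ⟨0, by rw [b1 C hr]; simp⟩
      · obtain ⟨Γ, rfl⟩ := hr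
        rw [b2]
        exact mul_nonneg (inv_pos.2 (m2 i)).le
          (Int.cast_nonneg_iff.2 (sub_nonneg.2 ((z1 i).1.2 Γ).2))
      · exact (b1 C hr).ge
      · obtain ⟨Γ, rfl⟩ := hr
        rw [b2, inv_mul_lt_iff₀ (m2 i), mul_one, ← Int.cast_natCast, Int.cast_lt]
        have c1 := ((z1 i).1.1.2.2 Γ.1.1).2
        have c2 := ((z1 i).1.2 Γ).1
        have c3 : (0 : ℤ) < m i := Int.natCast_pos.2 (m0 i)
        have c4 : (0 : ℤ) < d := Int.natCast_pos.2 hd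
        rw [← m1] at c1
        nlinarith
      · rw [b1 C hr]; exact zero_lt_one)
    m0
  let e : Dg M o →+ ℤ := (AddMonoidHom.mulLeft (μ : ℤ)).comp
    (Pi.evalAddMonoidHom (fun _ => ℤ) none)
  obtain ⟨G, g1, g2, g3⟩ := push (P := P) (p0 := p0) (δ := (ev M o).comp (dc (FF M o μ w)))
    (e := e) (φ := φ) (h.po ▸ h.p1) h.φ0 z (RS (FF M o μ w)) _ hF
    (fun c s hs => h.po ▸ hR _ s hs.1) fun a s hs => by
      rw [h.po] at hs
      refine (rs_iff h hμ (kp_sum (fun i => (z1 i).1) a) hs).trans (iff_of_eq ?_)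
      refine congrArg₂ (Ha H) ?_ rfl
      rw [bd_sum]
      have e2 : (((μ : ℤ) * (∑ i, a i • z i) none : ℤ) : ℝ) = ∑ i, ((a i * m i : ℕ) : ℝ) := by
        have : (μ : ℤ) * (∑ i, a i • z i) none = ∑ i, ((a i * m i : ℕ) : ℤ) := by
          rw [Finset.sum_apply, mul_sum]
          exact sum_congr rfl fun i _ => by
            rw [Pi.smul_apply, nsmul_eq_mul, Nat.cast_mul, m1]
            ring
        rw [this]
        push_cast
        rfl
      rw [e2, sum_smul, ← sum_add_distrib]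
      refine sum_congr rfl fun i _ => ?_
      rw [smul_add (((a i * m i : ℕ) : ℝ)) (KD S + _), smul_smul, Nat.cast_mul (a i),
        mul_assoc, mul_inv_cancel₀ (m2 i).ne', mul_one]
  refine ⟨G, g1, g2, fun y hy s hs => ?_⟩
  obtain ⟨a, rfl⟩ := z2 y hy
  exact h.po ▸ g3 a s hs

end

end Pool.Agent.MP_ee8c61_ag.M3S4
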