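import Pool.Agent.MP_ee8c61_ag.M3FG.SpecB
import Pool.Agent.MP_ee8c61_ag.M3SN.SpecN
import Pool.Agent.MP_ee8c61_ag.M3RESID.Defs

/-!
Lifting of generators from the residue field of a valuation.
-/

namespace Pool.Agent.MP_ee8c61_ag.M3S4

open M3 M3FG M3RESID Finset

noncomputable section

variable {L K k : Type} [AddCommGroup L] [Field K] [Algebra ℂ K] [Field k] [Algebra ℂ k]
  (P : Pl K k) (p0 : K) (δ e : L →+ ℤ) (φ : k)

/-- The leading term in degree `c`. -/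
def lead (c : L) (s : K) : k := P.π (s * p0 ^ δ c) * φ ^ e c

variable {P p0 δ e φ}

omit [Algebra ℂ K] in
theorem ne_of_v {o : DV K} (hp : o.v p0 = 1) : p0 ≠ 0 := fun h => by
  rw [h, o.zero] at hp
  exact zero_ne_one hp

omit [Algebra ℂ K] in
theorem shift {o : DV K} (hp : o.v p0 = 1) (a m : ℤ) (s : K) :
    s * p0 ^ a ∈ o.F m ↔ s ∈ o.F (m - a) := by
  have h0 := zpow_ne_zero a (ne_of_v hp)
  by_cases hs : s = 0
  · simp [hs]
  rw [o.mem_F, o.mem_F, o.mul _ _ hs h0, o.zpow, hp]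
  simp [hs, h0]

theorem mem0 (hp : P.o.v p0 = 1) {c : L} {s : K} (hs : s ∈ P.o.F (-δ c)) :
    s * p0 ^ δ c ∈ P.o.F 0 := (shift hp _ _ _).2 (by rwa [zero_sub])

theorem lead_add (hp : P.o.v p0 = 1) {c : L} {s t : K} (hs : s ∈ P.o.F (-δ c))
    (ht : t ∈ P.o.F (-δ c)) :
    lead P p0 δ e φ c (s + t) = lead P p0 δ e φ c s + lead P p0 δ e φ c t := by
  rw [lead, lead, lead, add_mul, P.add _ (mem0 hp hs) _ (mem0 hp ht), add_mul]

theorem lead_mul (hp : P.o.v p0 = 1) (hφ : φ ≠ 0) {c c' : L} {s t : K} (hs : s ∈ P.o.F (-δ c))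
    (ht : t ∈ P.o.F (-δ c')) :
    lead P p0 δ e φ (c + c') (s * t) = lead P p0 δ e φ c s * lead P p0 δ e φ c' t := by
  rw [lead, lead, lead, map_add, map_add, zpow_add₀ (ne_of_v hp), zpow_add₀ hφ,
    mul_mul_mul_comm s, P.mul _ (mem0 hp hs) _ (mem0 hp ht)]
  ring

theorem lead_cst (a : ℂ) : lead P p0 δ e φ 0 (algebraMap ℂ K a) = algebraMap ℂ k a := by
  simp [lead, (P.cst a).2]

theorem lead_zero (c : L) : lead P p0 δ e φ c 0 = 0 := by
  have := (P.cst 0).2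
  rw [map_zero, map_zero] at this
  rw [lead, zero_mul, this, zero_mul]

theorem lead_eq (hp : P.o.v p0 = 1) (hφ : φ ≠ 0) {c : L} {s t : K} (hs : s ∈ P.o.F (-δ c))
    (ht : t ∈ P.o.F (-δ c)) (h : lead P p0 δ e φ c s = lead P p0 δ e φ c t) :
    s - t ∈ P.o.F (1 - δ c) := by
  have h1 := lead_add (e := e) (φ := φ) hp (sub_mem hs ht) ht
  rw [sub_add_cancel, h, right_eq_add, lead, mul_eq_zero] at h1
  exact (shift hp _ _ _).1
    ((P.ker _ (mem0 hp (sub_mem hs ht))).1 (h1.resolve_right (zpow_ne_zero _ hφ)))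

theorem lead_surj (hp : P.o.v p0 = 1) (hφ : φ ≠ 0) (c : L) (y : k) :
    ∃ s ∈ P.o.F (-δ c), lead P p0 δ e φ c s = y := by
  obtain ⟨t, h1, h2⟩ := P.surj (y * φ ^ (-e c))
  refine ⟨t * p0 ^ (-δ c), (shift hp _ _ _).2 (by simpa using h1), ?_⟩
  rw [lead, mul_assoc t, ← zpow_add₀ (ne_of_v hp), neg_add_cancel, zpow_zero, mul_one, h2,
    mul_assoc, ← zpow_add₀ hφ, neg_add_cancel, zpow_zero, mul_one]

theorem push (hp : P.o.v p0 = 1) (hφ : φ ≠ 0) {l : ℕ} (z : Fin l → L) (T : L → Set K)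
    (Fk : (Fin l → ℕ) → k → Prop) (hF : M3SN.FGr Fk) (hT : ∀ c, ∀ s ∈ T c, s ∈ P.o.F (-δ c))
    (h : ∀ (n : Fin l → ℕ) s, s ∈ P.o.F (-δ (∑ i, n i • z i)) →
      (s ∈ T (∑ i, n i • z i) ↔ Fk n (lead P p0 δ e φ (∑ i, n i • z i) s))) :
    ∃ G : Set (L × K), G.Finite ∧ (∀ p ∈ G, p.2 ∈ T p.1) ∧
      ∀ n : Fin l → ℕ, ∀ s ∈ T (∑ i, n i • z i), SpM P.o δ G (∑ i, n i • z i) s := by
  obtain ⟨r, ν, g, h1, h2⟩ := hF
  choose x x1 x2 using fun j => lead_surj (δ := δ) (e := e) hp hφ (∑ i, ν j i • z i) (g j)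
  set G : Set (L × K) := Set.range fun j => (∑ i, ν j i • z i, x j) with hG
  have hv : Triv P.o := fun a => (P.cst a).1
  have hGv : ∀ p ∈ G, p.2 ∈ P.o.F (-δ p.1) := by
    rintro _ ⟨j, rfl⟩
    exact x1 j
  -- the pairs that lift
  let Q : L → k → Prop := fun c y => ∃ u, Sp G c u ∧ lead P p0 δ e φ c u = y
  have q1 : ∀ c c' y y', Q c y → Q c' y' → Q (c + c') (y * y') := by
    rintro c c' _ _ ⟨u, u1, rfl⟩ ⟨w, w1, rfl⟩
    exact ⟨u * w, u1.mul w1, lead_mul hp hφ (u1.mem_F hv δ hGv) (w1.mem_F hv δ hGv)⟩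
  have q0 : ∀ a : ℂ, Q 0 (algebraMap ℂ k a) := fun a => ⟨_, Sp.const a, lead_cst a⟩
  have q2 : ∀ c y (m : ℕ), Q c y → Q (m • c) (y ^ m) := fun c y m hq => by
    induction m with
    | zero => simpa using q0 1
    | succ m ih => rw [succ_nsmul, pow_succ]; exact q1 _ _ _ _ ih hq
  have q3 : ∀ (α : Fin r → ℕ) (s : Finset (Fin r)),
      Q (∑ j ∈ s, α j • ∑ i, ν j i • z i) (∏ j ∈ s, g j ^ α j) := fun α s => by
    induction s using Finset.induction_on with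
    | empty => simpa using q0 1
    | insert a s ha ih =>
      rw [sum_insert ha, prod_insert ha]
      exact q1 _ _ _ _ (q2 _ _ _ ⟨x a, Sp.gen ⟨a, rfl⟩, x2 a⟩) ih
  refine ⟨G, Set.finite_range _, ?_, fun n s hs => ?_⟩
  · rintro _ ⟨j, rfl⟩
    exact (h _ _ (x1 j)).2 ((x2 j).symm ▸ h1 j)
  have h3 := h2 n _ ((h n s (hT _ s hs)).1 hs)
  have h4 : Q (∑ i, n i • z i) (lead P p0 δ e φ (∑ i, n i • z i) s) := by
    refine Submodule.span_induction (p := fun y _ => Q (∑ i, n i • z i) y) ?_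
      ⟨0, Sp.zero _, lead_zero _⟩ ?_ ?_ h3
    · rintro _ ⟨α, rfl, rfl⟩
      have e1 : ∑ i, (∑ j, α j • ν j) i • z i = ∑ j, α j • ∑ i, ν j i • z i := by
        simp only [Finset.sum_apply, Pi.smul_apply, smul_eq_mul, sum_smul, smul_sum, mul_smul]
        exact sum_comm
      rw [e1]
      exact q3 α univ
    · rintro _ _ - - ⟨u, u1, rfl⟩ ⟨w, w1, rfl⟩
      exact ⟨u + w, u1.add w1, lead_add hp (u1.mem_F hv δ hGv) (w1.mem_F hv δ hGv)⟩
    · intro a y _ hy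
      have := q1 _ _ _ _ (q0 a) hy
      rwa [zero_add, ← Algebra.smul_def] at this
  obtain ⟨u, u1, u2⟩ := h4
  exact ⟨u, u1, lead_eq hp hφ (hT _ s hs) (u1.mem_F hv δ hGv) u2.symm⟩

end

end Pool.Agent.MP_ee8c61_ag.M3S4
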